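import Mathlib
import Pool.Agent.Lead.Ek.Defs

/-! P7: Dowker duality by elementary expansions (packet of MP_d4e2f9_lc). -/

set_option autoImplicit false
set_option linter.unusedSectionVars false

namespace Pool.Agent.Helper69.Ek

open Finset Pool.Agent.Lead.Ek

/-- A monotone matching gives a chain of elementary expansions. -/
theorem mvStar_of_match {α : Type} [DecidableEq α] [Fintype α] (K0 M : Set (Finset α))
    (v : Finset α → α) (μ : Finset α → ℕ)
    (hsub : K0 ⊆ M)
    (hins : ∀ Z ∈ M \ K0, insert (v Z) Z ∈ M \ K0)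
    (hers : ∀ Z ∈ M \ K0, Z.erase (v Z) ∈ M \ K0)
    (hvi : ∀ Z ∈ M \ K0, v (insert (v Z) Z) = v Z)
    (hve : ∀ Z ∈ M \ K0, v (Z.erase (v Z)) = v Z)
    (hμ : ∀ Z ∈ M \ K0, μ (Z.erase (v Z)) = μ Z)
    (hface : ∀ Z ∈ M \ K0, v Z ∉ Z → ∀ t ∈ Z, insert (v Z) (Z.erase t) ∈ K0 ∨
      (insert (v Z) (Z.erase t) ∈ M \ K0 ∧ μ (insert (v Z) (Z.erase t)) < μ Z)) :
    MvStar 0 0 K0 M := by
  suffices H : ∀ (n : ℕ) (K : Set (Finset α)), K0 ⊆ K → K ⊆ M →
      (∀ Z ∈ M \ K0, (Z ∈ K ↔ insert (v Z) Z ∈ K)) → (M \ K).ncard ≤ n → MvStar 0 0 K M by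
    refine H (M \ K0).ncard K0 subset_rfl hsub ?_ le_rfl
    intro Z hZ
    constructor
    · intro h; exact absurd h hZ.2
    · intro h; exact absurd h (hins Z hZ).2
  intro n
  induction n with
  | zero =>
    intro K _ hKM _ hn
    have h0 : (M \ K).ncard = 0 := by omega
    rw [Set.ncard_eq_zero (Set.toFinite _)] at h0
    have : K = M := Set.Subset.antisymm hKM (Set.sdiff_eq_empty.mp h0)
    rw [this]
    exact Relation.ReflTransGen.refl
  | succ n ih =>
    intro K hK0 hKM hcl hn
    by_cases hne : (M \ K).Nonempty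
    · obtain ⟨Z, hZ, hmin⟩ := Set.exists_min_image (M \ K) μ (Set.toFinite _) hne
      have hZ0 : Z ∈ M \ K0 := ⟨hZ.1, fun h => hZ.2 (hK0 h)⟩
      -- the pair
      obtain ⟨τ, hτdef⟩ : ∃ τ, τ = Z.erase (v Z) := ⟨_, rfl⟩
      have hτ0 : τ ∈ M \ K0 := hτdef ▸ hers Z hZ0
      have hvτ : v τ = v Z := hτdef ▸ hve Z hZ0
      have hμτ : μ τ = μ Z := hτdef ▸ hμ Z hZ0
      have hnot : v Z ∉ τ := by rw [hτdef]; exact Finset.notMem_erase _ _
      have hins_eq : insert (v Z) τ = insert (v Z) Z := by
        rw [hτdef]; ext x; simp only [Finset.mem_insert, Finset.mem_erase]; tauto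
      have hiZ : insert (v Z) Z ∉ K := fun h => hZ.2 ((hcl Z hZ0).mpr h)
      have hiτ : insert (v Z) τ ∉ K := by rw [hins_eq]; exact hiZ
      have hτK : τ ∉ K := by
        intro h
        have := (hcl τ hτ0).mp h
        rw [hvτ] at this
        exact hiτ this
      have hiτ0 : insert (v Z) τ ∈ M \ K0 := by rw [hins_eq]; exact hins Z hZ0
      have hmv : Mv 0 0 K (K ∪ {τ, insert (v Z) τ}) := by
        refine ⟨τ, v Z, hnot, Nat.zero_le _, Nat.zero_le _, hτK, hiτ, ?_, rfl⟩
        intro t ht
        have hf := hface τ hτ0 (by rw [hvτ]; exact hnot) t ht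
        rw [hvτ] at hf
        rcases hf with hf | ⟨hf1, hf2⟩
        · exact hK0 hf
        · by_contra hc
          have := hmin _ ⟨hf1.1, hc⟩
          omega
      refine Relation.ReflTransGen.head hmv (ih _ ?_ ?_ ?_ ?_)
      · exact hK0.trans Set.subset_union_left
      · intro X hX
        rcases hX with hX | hX | hX
        · exact hKM hX
        · rw [hX]; exact hτ0.1
        · rw [Set.mem_singleton_iff.mp hX]; exact hiτ0.1
      · intro W hW
        constructor
        · rintro (h | h | h)
          · exact Or.inl ((hcl W hW).mp h)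
          · rw [h, hvτ]; exact Or.inr (Or.inr rfl)
          · have h' : W = insert (v Z) τ := h
            have hvW : v W = v Z := by
              rw [h', ← hvτ]; exact hvi τ hτ0
            rw [hvW, h']
            right; right
            simp
        · intro h
          have hvW := hvi W hW
          rcases h with h | h | h
          · exact Or.inl ((hcl W hW).mpr h)
          · exfalso
            have h' : insert (v W) W = τ := h
            rw [h', hvτ] at hvW
            apply hnot
            rw [hvW, ← h']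
            exact Finset.mem_insert_self _ _
          · have h' : insert (v W) W = insert (v Z) τ := h
            have hvv : v W = v Z := by
              rw [h', ← hvτ, hvi τ hτ0] at hvW
              rw [← hvW, hvτ]
            rw [hvv] at h'
            by_cases hm : v Z ∈ W
            · right; right
              rw [Set.mem_singleton_iff, ← h', Finset.insert_eq_of_mem hm]
            · right; left
              rw [← Finset.erase_insert hm, h', Finset.erase_insert hnot]
      · have hlt : (M \ (K ∪ {τ, insert (v Z) τ})).ncard < (M \ K).ncard := by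
          apply Set.ncard_lt_ncard _ (Set.toFinite _)
          refine ⟨fun X hX => ⟨hX.1, fun h => hX.2 (Or.inl h)⟩, ?_⟩
          intro hc
          have := hc (show τ ∈ M \ K from ⟨hτ0.1, hτK⟩)
          exact this.2 (Or.inr (Or.inl rfl))
        omega
    · have h0 : M \ K = ∅ := Set.not_nonempty_iff_eq_empty.mp hne
      have : K = M := Set.Subset.antisymm hKM (Set.sdiff_eq_empty.mp h0)
      rw [this]
      exact Relation.ReflTransGen.refl

section

variable {A B : Type} [DecidableEq A] [DecidableEq B] [Fintype A] [Fintype B]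

/-- The common expansion of the two Dowker complexes. -/
def dowM (r : A → B → Prop) : Set (Finset (A ⊕ B)) :=
  {Z | (∀ a ∈ Z.toLeft, ∀ b ∈ Z.toRight, r a b) ∧ Z.toLeft ∈ dowL r ∧ Z.toRight ∈ dowR r}

open Classical in
/-- A vertex related to all the elements of `T`, if there is one. -/
noncomputable def vL [Nonempty A] (r : A → B → Prop) (T : Finset B) : A :=
  if h : ∃ a, ∀ b ∈ T, r a b then h.choose else Classical.arbitrary A

theorem vL_spec [Nonempty A] (r : A → B → Prop) (T : Finset B) (h : T ∈ dowR r) :
    ∀ b ∈ T, r (vL r T) b := by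
  have h' : ∃ a, ∀ b ∈ T, r a b := h
  unfold vL
  rw [dif_pos h']
  exact h'.choose_spec

omit [Fintype A] [Fintype B] in
theorem toRight_erase_inl (Z : Finset (A ⊕ B)) (a : A) :
    (Z.erase (Sum.inl a)).toRight = Z.toRight := by ext y; simp

omit [Fintype A] [Fintype B] in
theorem toLeft_erase_inl (Z : Finset (A ⊕ B)) (a : A) :
    (Z.erase (Sum.inl a)).toLeft = Z.toLeft.erase a := by ext y; simp

omit [Fintype A] [Fintype B] in
theorem toRight_erase_inr (Z : Finset (A ⊕ B)) (b : B) :
    (Z.erase (Sum.inr b)).toRight = Z.toRight.erase b := by ext y; simp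

omit [Fintype A] [Fintype B] in
theorem toLeft_erase_inr (Z : Finset (A ⊕ B)) (b : B) :
    (Z.erase (Sum.inr b)).toLeft = Z.toLeft := by ext y; simp

omit [Fintype A] [Fintype B] in
theorem dowM_cx (r : A → B → Prop) : Cx (dowM r) := by
  intro X hX Y hY
  have hl : Y.toLeft ⊆ X.toLeft := Finset.toLeft_subset_toLeft hY
  have hr : Y.toRight ⊆ X.toRight := Finset.toRight_subset_toRight hY
  obtain ⟨h1, ⟨b, hb⟩, ⟨a, ha⟩⟩ := hX
  exact ⟨fun a ha b hb => h1 a (hl ha) b (hr hb), ⟨b, fun a ha => hb a (hl ha)⟩,
    ⟨a, fun b hb => ha b (hr hb)⟩⟩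

omit [Fintype A] [Fintype B] in
theorem dowL_anti (r : A → B → Prop) {S S' : Finset A} (h : S ⊆ S') (h' : S' ∈ dowL r) :
    S ∈ dowL r := by
  obtain ⟨b, hb⟩ := h'
  exact ⟨b, fun a ha => hb a (h ha)⟩

omit [Fintype A] [Fintype B] in
theorem mem_push_inl [Nonempty A] (r : A → B → Prop) (Z : Finset (A ⊕ B)) :
    Z ∈ push Function.Embedding.inl (dowL r) ↔ Z.toRight = ∅ ∧ Z ∈ dowM r := by
  constructor
  · rintro ⟨Y, hY, rfl⟩
    have h1 : (Y.map (Function.Embedding.inl : A ↪ A ⊕ B)).toLeft = Y := by
      ext x; simp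
    have h2 : (Y.map (Function.Embedding.inl : A ↪ A ⊕ B)).toRight = ∅ := by
      ext x; simp
    refine ⟨h2, ?_, ?_, ?_⟩
    · intro a _ b hb
      rw [h2] at hb
      simp at hb
    · rw [h1]; exact hY
    · rw [h2]
      exact ⟨Classical.arbitrary A, fun b hb => by simp at hb⟩
  · rintro ⟨h1, h2⟩
    refine ⟨Z.toLeft, h2.2.1, ?_⟩
    ext x
    rcases x with x | x
    · simp
    · have : x ∉ Z.toRight := by rw [h1]; simp
      simpa using this

omit [Fintype A] [Fintype B] in
theorem mem_push_inr [Nonempty B] (r : A → B → Prop) (Z : Finset (A ⊕ B)) :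
    Z ∈ push Function.Embedding.inr (dowR r) ↔ Z.toLeft = ∅ ∧ Z ∈ dowM r := by
  constructor
  · rintro ⟨Y, hY, rfl⟩
    have h1 : (Y.map (Function.Embedding.inr : B ↪ A ⊕ B)).toRight = Y := by
      ext x; simp
    have h2 : (Y.map (Function.Embedding.inr : B ↪ A ⊕ B)).toLeft = ∅ := by
      ext x; simp
    refine ⟨h2, ?_, ?_, ?_⟩
    · intro a ha
      rw [h2] at ha
      simp at ha
    · rw [h2]
      exact ⟨Classical.arbitrary B, fun b hb => by simp at hb⟩
    · rw [h1]; exact hY
  · rintro ⟨h1, h2⟩
    refine ⟨Z.toRight, h2.2.2, ?_⟩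
    ext x
    rcases x with x | x
    · have : x ∉ Z.toLeft := by rw [h1]; simp
      simpa using this
    · simp

/-- `dowL` expands to the common complex. -/
theorem dow_left [Nonempty A] (r : A → B → Prop) :
    MvStar 0 0 (push Function.Embedding.inl (dowL r)) (dowM r) := by
  have hdiff : ∀ Z : Finset (A ⊕ B), Z ∈ dowM r \ push Function.Embedding.inl (dowL r) ↔
      Z.toRight ≠ ∅ ∧ Z ∈ dowM r := by
    intro Z
    rw [Set.mem_sdiff, mem_push_inl]
    tauto
  -- faces with the same right part
  have key : ∀ (Z W : Finset (A ⊕ B)), Z.toRight ≠ ∅ → Z ∈ dowM r → W.toRight = Z.toRight →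
      (∀ a ∈ W.toLeft, ∀ b ∈ Z.toRight, r a b) → W.toRight ≠ ∅ ∧ W ∈ dowM r := by
    intro Z W h1 h2 h3 h4
    refine ⟨by rw [h3]; exact h1, ?_, ?_, ?_⟩
    · rw [h3]; exact h4
    · obtain ⟨b, hb⟩ := Finset.nonempty_iff_ne_empty.mpr h1
      exact ⟨b, fun a ha => h4 a ha b hb⟩
    · rw [h3]; exact h2.2.2
  apply mvStar_of_match _ _ (fun Z => Sum.inl (vL r Z.toRight))
    (fun Z => Z.toRight.card * (Fintype.card A + 1) + (Z.toLeft.erase (vL r Z.toRight)).card)
  · intro Z hZ
    exact ((mem_push_inl r Z).mp hZ).2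
  · intro Z hZ
    rw [hdiff] at hZ ⊢
    apply key Z _ hZ.1 hZ.2 (by simp)
    intro a ha b hb
    rw [Finset.toLeft_insert_inl, Finset.mem_insert] at ha
    rcases ha with rfl | ha
    · exact vL_spec r _ hZ.2.2.2 b hb
    · exact hZ.2.1 a ha b hb
  · intro Z hZ
    rw [hdiff] at hZ ⊢
    apply key Z _ hZ.1 hZ.2 (toRight_erase_inl _ _)
    intro a ha b hb
    rw [toLeft_erase_inl, Finset.mem_erase] at ha
    exact hZ.2.1 a ha.2 b hb
  · intro Z _
    simp
  · intro Z _
    simp only [toRight_erase_inl]
  · intro Z _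
    simp only [toRight_erase_inl, toLeft_erase_inl]
    congr 2
    ext x
    simp only [Finset.mem_erase]
    tauto
  · intro Z hZ hv t ht
    rw [hdiff] at hZ
    rw [hdiff]
    have hvL : vL r Z.toRight ∉ Z.toLeft := by
      intro h
      exact hv (Finset.mem_toLeft.mp h)
    rcases t with t | t
    · right
      refine ⟨?_, ?_⟩
      · apply key Z _ hZ.1 hZ.2
        · rw [Finset.toRight_insert_inl, toRight_erase_inl]
        · intro a ha b hb
          rw [Finset.toLeft_insert_inl, toLeft_erase_inl, Finset.mem_insert,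
            Finset.mem_erase] at ha
          rcases ha with rfl | ha
          · exact vL_spec r _ hZ.2.2.2 b hb
          · exact hZ.2.1 a ha.2 b hb
      · simp only [Finset.toRight_insert_inl, toRight_erase_inl, Finset.toLeft_insert_inl,
          toLeft_erase_inl]
        apply Nat.add_lt_add_left
        have h1 : t ∈ Z.toLeft := Finset.mem_toLeft.mpr ht
        have h2 : (insert (vL r Z.toRight) (Z.toLeft.erase t)).erase (vL r Z.toRight) =
            Z.toLeft.erase t := by
          apply Finset.erase_insert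
          intro h
          exact hvL (Finset.mem_of_mem_erase h)
        rw [h2, Finset.erase_eq_of_notMem hvL]
        exact Finset.card_erase_lt_of_mem h1
    · -- the right part shrinks
      have h1 : t ∈ Z.toRight := Finset.mem_toRight.mpr ht
      have hR : (insert (Sum.inl (vL r Z.toRight)) (Z.erase (Sum.inr t))).toRight =
          Z.toRight.erase t := by
        rw [Finset.toRight_insert_inl, toRight_erase_inr]
      have hL : (insert (Sum.inl (vL r Z.toRight)) (Z.erase (Sum.inr t))).toLeft =
          insert (vL r Z.toRight) Z.toLeft := by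
        rw [Finset.toLeft_insert_inl, toLeft_erase_inr]
      have hM : insert (Sum.inl (vL r Z.toRight)) (Z.erase (Sum.inr t)) ∈ dowM r := by
        have h3 : ∀ a ∈ insert (vL r Z.toRight) Z.toLeft, ∀ b ∈ Z.toRight, r a b := by
          intro a ha b hb
          rcases Finset.mem_insert.mp ha with rfl | ha
          · exact vL_spec r _ hZ.2.2.2 b hb
          · exact hZ.2.1 a ha b hb
        refine ⟨?_, ?_, ?_⟩
        · rw [hR, hL]
          intro a ha b hb
          exact h3 a ha b (Finset.mem_of_mem_erase hb)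
        · rw [hL]
          exact ⟨t, fun a ha => h3 a ha t h1⟩
        · rw [hR]
          obtain ⟨a, ha⟩ := hZ.2.2.2
          exact ⟨a, fun b hb => ha b (Finset.mem_of_mem_erase hb)⟩
      by_cases he : Z.toRight.erase t = ∅
      · left
        rw [mem_push_inl]
        exact ⟨by rw [hR]; exact he, hM⟩
      · right
        refine ⟨⟨by rw [hR]; exact he, hM⟩, ?_⟩
        simp only [hR]
        have hc : (Z.toRight.erase t).card + 1 = Z.toRight.card :=
          Finset.card_erase_add_one h1
        have hc2 : (((insert (Sum.inl (vL r Z.toRight)) (Z.erase (Sum.inr t))).toLeft).erase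
            (vL r (Z.toRight.erase t))).card ≤ Fintype.card A := Finset.card_le_univ _
        calc (Z.toRight.erase t).card * (Fintype.card A + 1) +
              (((insert (Sum.inl (vL r Z.toRight)) (Z.erase (Sum.inr t))).toLeft).erase
                (vL r (Z.toRight.erase t))).card
            ≤ (Z.toRight.erase t).card * (Fintype.card A + 1) + Fintype.card A := by omega
          _ < ((Z.toRight.erase t).card + 1) * (Fintype.card A + 1) := by
              rw [Nat.add_mul]; omega
          _ = Z.toRight.card * (Fintype.card A + 1) := by rw [hc]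
          _ ≤ _ := Nat.le_add_right _ _

open Classical in
/-- A vertex to which all the elements of `S` are related, if there is one. -/
noncomputable def vR [Nonempty B] (r : A → B → Prop) (S : Finset A) : B :=
  if h : ∃ b, ∀ a ∈ S, r a b then h.choose else Classical.arbitrary B

theorem vR_spec [Nonempty B] (r : A → B → Prop) (S : Finset A) (h : S ∈ dowL r) :
    ∀ a ∈ S, r a (vR r S) := by
  have h' : ∃ b, ∀ a ∈ S, r a b := h
  unfold vR
  rw [dif_pos h']
  exact h'.choose_spec

/-- `dowR` expands to the common complex. -/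
theorem dow_right [Nonempty B] (r : A → B → Prop) :
    MvStar 0 0 (push Function.Embedding.inr (dowR r)) (dowM r) := by
  have hdiff : ∀ Z : Finset (A ⊕ B), Z ∈ dowM r \ push Function.Embedding.inr (dowR r) ↔
      Z.toLeft ≠ ∅ ∧ Z ∈ dowM r := by
    intro Z
    rw [Set.mem_sdiff, mem_push_inr]
    tauto
  have key : ∀ (Z W : Finset (A ⊕ B)), Z.toLeft ≠ ∅ → Z ∈ dowM r → W.toLeft = Z.toLeft →
      (∀ b ∈ W.toRight, ∀ a ∈ Z.toLeft, r a b) → W.toLeft ≠ ∅ ∧ W ∈ dowM r := by
    intro Z W h1 h2 h3 h4
    refine ⟨by rw [h3]; exact h1, ?_, ?_, ?_⟩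
    · rw [h3]; exact fun a ha b hb => h4 b hb a ha
    · rw [h3]; exact h2.2.1
    · obtain ⟨a, ha⟩ := Finset.nonempty_iff_ne_empty.mpr h1
      exact ⟨a, fun b hb => h4 b hb a ha⟩
  apply mvStar_of_match _ _ (fun Z => Sum.inr (vR r Z.toLeft))
    (fun Z => Z.toLeft.card * (Fintype.card B + 1) + (Z.toRight.erase (vR r Z.toLeft)).card)
  · intro Z hZ
    exact ((mem_push_inr r Z).mp hZ).2
  · intro Z hZ
    rw [hdiff] at hZ ⊢
    apply key Z _ hZ.1 hZ.2 (by simp)
    intro b hb a ha
    rw [Finset.toRight_insert_inr, Finset.mem_insert] at hb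
    rcases hb with rfl | hb
    · exact vR_spec r _ hZ.2.2.1 a ha
    · exact hZ.2.1 a ha b hb
  · intro Z hZ
    rw [hdiff] at hZ ⊢
    apply key Z _ hZ.1 hZ.2 (toLeft_erase_inr _ _)
    intro b hb a ha
    rw [toRight_erase_inr, Finset.mem_erase] at hb
    exact hZ.2.1 a ha b hb.2
  · intro Z _
    simp
  · intro Z _
    simp only [toLeft_erase_inr]
  · intro Z _
    simp only [toLeft_erase_inr, toRight_erase_inr]
    congr 2
    ext x
    simp only [Finset.mem_erase]
    tauto
  · intro Z hZ hv t ht
    rw [hdiff] at hZ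
    rw [hdiff]
    have hvR : vR r Z.toLeft ∉ Z.toRight := by
      intro h
      exact hv (Finset.mem_toRight.mp h)
    rcases t with t | t
    · -- the left part shrinks
      have h1 : t ∈ Z.toLeft := Finset.mem_toLeft.mpr ht
      have hL : (insert (Sum.inr (vR r Z.toLeft)) (Z.erase (Sum.inl t))).toLeft =
          Z.toLeft.erase t := by
        rw [Finset.toLeft_insert_inr, toLeft_erase_inl]
      have hR : (insert (Sum.inr (vR r Z.toLeft)) (Z.erase (Sum.inl t))).toRight =
          insert (vR r Z.toLeft) Z.toRight := by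
        rw [Finset.toRight_insert_inr, toRight_erase_inl]
      have hM : insert (Sum.inr (vR r Z.toLeft)) (Z.erase (Sum.inl t)) ∈ dowM r := by
        have h3 : ∀ b ∈ insert (vR r Z.toLeft) Z.toRight, ∀ a ∈ Z.toLeft, r a b := by
          intro b hb a ha
          rcases Finset.mem_insert.mp hb with rfl | hb
          · exact vR_spec r _ hZ.2.2.1 a ha
          · exact hZ.2.1 a ha b hb
        refine ⟨?_, ?_, ?_⟩
        · rw [hR, hL]
          intro a ha b hb
          exact h3 b hb a (Finset.mem_of_mem_erase ha)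
        · rw [hL]
          obtain ⟨b, hb⟩ := hZ.2.2.1
          exact ⟨b, fun a ha => hb a (Finset.mem_of_mem_erase ha)⟩
        · rw [hR]
          exact ⟨t, fun b hb => h3 b hb t h1⟩
      by_cases he : Z.toLeft.erase t = ∅
      · left
        rw [mem_push_inr]
        exact ⟨by rw [hL]; exact he, hM⟩
      · right
        refine ⟨⟨by rw [hL]; exact he, hM⟩, ?_⟩
        simp only [hL]
        have hc : (Z.toLeft.erase t).card + 1 = Z.toLeft.card :=
          Finset.card_erase_add_one h1
        have hc2 : (((insert (Sum.inr (vR r Z.toLeft)) (Z.erase (Sum.inl t))).toRight).erase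
            (vR r (Z.toLeft.erase t))).card ≤ Fintype.card B := Finset.card_le_univ _
        calc (Z.toLeft.erase t).card * (Fintype.card B + 1) +
              (((insert (Sum.inr (vR r Z.toLeft)) (Z.erase (Sum.inl t))).toRight).erase
                (vR r (Z.toLeft.erase t))).card
            ≤ (Z.toLeft.erase t).card * (Fintype.card B + 1) + Fintype.card B := by omega
          _ < ((Z.toLeft.erase t).card + 1) * (Fintype.card B + 1) := by
              rw [Nat.add_mul]; omega
          _ = Z.toLeft.card * (Fintype.card B + 1) := by rw [hc]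
          _ ≤ _ := Nat.le_add_right _ _
    · right
      refine ⟨?_, ?_⟩
      · apply key Z _ hZ.1 hZ.2
        · rw [Finset.toLeft_insert_inr, toLeft_erase_inr]
        · intro b hb a ha
          rw [Finset.toRight_insert_inr, toRight_erase_inr, Finset.mem_insert,
            Finset.mem_erase] at hb
          rcases hb with rfl | hb
          · exact vR_spec r _ hZ.2.2.1 a ha
          · exact hZ.2.1 a ha b hb.2
      · simp only [Finset.toLeft_insert_inr, toLeft_erase_inr, Finset.toRight_insert_inr,
          toRight_erase_inr]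
        apply Nat.add_lt_add_left
        have h1 : t ∈ Z.toRight := Finset.mem_toRight.mpr ht
        have h2 : (insert (vR r Z.toLeft) (Z.toRight.erase t)).erase (vR r Z.toLeft) =
            Z.toRight.erase t := by
          apply Finset.erase_insert
          intro h
          exact hvR (Finset.mem_of_mem_erase h)
        rw [h2, Finset.erase_eq_of_notMem hvR]
        exact Finset.card_erase_lt_of_mem h1

end

/-- Packet P7. -/
theorem dowker : P7_dowker := by
  intro A B _ _ _ _ _ _ r
  exact ⟨dowM r, dowM_cx r, dow_left r, dow_right r⟩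

end Pool.Agent.Helper69.Ek
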